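import Mathlib

namespace Pool.Agent.Results.MP_970e84_lc.Example
open FirstOrder Language Structure Filter

section defs
variable (L : FirstOrder.Language.{0, 0}) (M : Type) [L.Structure M]

/-- a countably infinite ultrahomogeneous structure in a countable relational language -/
def FraisseStr : Prop :=
  L.IsRelational ∧ Countable L.Symbols ∧ Countable M ∧ Infinite M ∧ L.IsUltrahomogeneous M

/-- complete `n`-types over `M`: sets of formulas with parameters from `M` (variables `inl b`) and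
free variables `inr i`, finitely satisfiable in `M` and complete -/
def IsType (n : ℕ) (p : Set (L.Formula (M ⊕ Fin n))) : Prop :=
  (∀ s : Finset (L.Formula (M ⊕ Fin n)), ↑s ⊆ p →
    ∃ a : Fin n → M, ∀ φ ∈ s, φ.Realize (Sum.elim id a)) ∧ ∀ φ, φ ∈ p ∨ φ.not ∈ p

/-- `g • p = {φ(x, g b) : φ(x, b) ∈ p}` -/
def act {n : ℕ} (g : M ≃[L] M) (p : Set (L.Formula (M ⊕ Fin n))) : Set (L.Formula (M ⊕ Fin n)) :=
  BoundedFormula.relabelEquiv (Equiv.sumCongr g.toEquiv (Equiv.refl (Fin n))) '' p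

/-- nonempty invariant sets of types, closed for the Stone topology (basic open sets
`{p | φ ∈ p}`) -/
def Subflow (n : ℕ) (Y : Set (Set (L.Formula (M ⊕ Fin n)))) : Prop :=
  Y.Nonempty ∧ (∀ p ∈ Y, IsType L M n p) ∧
    (∀ q, IsType L M n q → (∀ φ ∈ q, ∃ p ∈ Y, φ ∈ p) → q ∈ Y) ∧ ∀ g, ∀ p ∈ Y, act L M g p ∈ Y

/-- fixed points on type spaces -/
def FPT : Prop := ∀ n ≥ 1, ∀ Y, Subflow L M n Y → ∃ p ∈ Y, ∀ g, act L M g p = p

/-- pointwise convergence on the automorphism group -/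
@[reducible] def ptw : TopologicalSpace (M ≃[L] M) :=
  TopologicalSpace.induced (fun g => (g : M → M)) (@Pi.topologicalSpace M (fun _ => M) fun _ => ⊥)

end defs

inductive Rel (ι : Type) : ℕ → Type
  | mk (i : ι) : Rel ι 2

def lang (ι : Type) : FirstOrder.Language.{0, 0} := ⟨fun _ => Empty, Rel ι⟩

class Dif (ι : Type) where
  D : ι → Set ℤ

open Dif

variable (ι : Type) [Dif ι]

instance : (lang ι).Structure ℤ where
  funMap f := f.elim
  RelMap r x := by cases r with | mk i => exact x 1 - x 0 ∈ D i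

def tr (c : ℤ) : ℤ ≃[lang ι] ℤ where
  toEquiv := Equiv.addRight c
  map_fun' f := f.elim
  map_rel' r x := by
    cases r with
    | mk i => exact iff_of_eq (congrArg (· ∈ D i) (add_sub_add_right_eq_sub (x 1) (x 0) c))

variable {ι}

theorem emb_diff (h : ∀ k, ∃ i : ι, D i = {k}) (S : (lang ι).Substructure ℤ) (f : S ↪[lang ι] ℤ)
    (x y : S) : f y - f x = y - x := by
  obtain ⟨i, hi⟩ := h (y.1 - x.1 : ℤ)
  have : f y - f x ∈ D i := (f.map_rel (.mk i) ![x, y]).2 (show y.1 - x.1 ∈ D i from hi ▸ rfl)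
  rwa [hi] at this

theorem aut_eq (h : ∀ k, ∃ i : ι, D i = {k}) (g : ℤ ≃[lang ι] ℤ) : g = tr ι (g 0) :=
  Language.Equiv.ext fun x => by
    have := emb_diff h ⊤ (g.toEmbedding.comp (Substructure.subtype ⊤)) ⟨0, trivial⟩ ⟨x, trivial⟩
    exact eq_add_of_sub_eq (this.trans (sub_zero x))

theorem fraisse [Countable ι] (h : ∀ k, ∃ i : ι, D i = {k}) : FraisseStr (lang ι) ℤ := by
  refine ⟨fun _ => inferInstanceAs (IsEmpty Empty), ?_, inferInstanceAs (Countable ℤ),
    inferInstanceAs (Infinite ℤ), fun S _ f => ?_⟩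
  · refine Function.Surjective.countable (f := fun i : ι => (.inr ⟨2, .mk i⟩ : (lang ι).Symbols)) ?_
    rintro (⟨_, f⟩ | ⟨_, ⟨i⟩⟩)
    exacts [f.elim, ⟨i, rfl⟩]
  · rcases isEmpty_or_nonempty S with e | ⟨⟨x⟩⟩
    · exact ⟨tr ι 0, Embedding.ext e.elim⟩
    · refine ⟨tr ι (f x - x), Embedding.ext fun y => ?_⟩
      show f y = y + (f x - x)
      rw [eq_add_of_sub_eq (emb_diff h S f x y)]
      abel

theorem real_act {n : ℕ} (c : ℤ) (φ : (lang ι).Formula (ℤ ⊕ Fin n)) (a : Fin n → ℤ) :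
    Formula.Realize (BoundedFormula.relabelEquiv
      (Equiv.sumCongr (tr ι c).toEquiv (Equiv.refl (Fin n))) φ) (Sum.elim id a) ↔
      φ.Realize (Sum.elim (· + c) a) :=
  BoundedFormula.realize_relabelEquiv.trans (iff_of_eq (congrArg φ.Realize
    (funext fun x => by cases x <;> rfl)))

theorem real_eq {α : Type} (e : α ≃ α) (φ : (lang ι).Formula α) (v : α → ℤ) :
    Formula.Realize (BoundedFormula.relabelEquiv e φ) v ↔ φ.Realize (v ∘ e) :=
  BoundedFormula.realize_relabelEquiv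

instance : Dif ℤ := ⟨fun k => {k}⟩

open Classical in
theorem key {n : ℕ} (φ : (lang ℤ).Formula (ℤ ⊕ Fin n)) (c : ℤ) (a : ℕ → Fin n → ℤ)
    (ha : ∀ (r : ℕ) i, (r : ℤ) < |a r i|) (h : ∀ r, φ.Realize (Sum.elim id (a r))) :
    ∃ r, φ.Realize (Sum.elim (· + c) (a r)) := by
  let U := hyperfilter ℕ
  let St : (ℕ → ℤ) → Prop := fun f => ∃ m, ∀ᶠ r in U, f r = m
  have St1 : ∀ f g : ℕ → ℤ, ∀ k, (∀ᶠ r in U, g r - f r = k) → St f → St g :=
    fun f g k e ⟨m, hm⟩ => ⟨k + m, (e.and hm).mono fun r ⟨p, q⟩ => q ▸ eq_add_of_sub_eq p⟩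
  have St2 : ∀ f g : ℕ → ℤ, ∀ k, (∀ᶠ r in U, g r - f r = k) → (St f ↔ St g) :=
    fun f g k e => ⟨St1 f g k e, St1 g f (-k) (e.mono fun r p => p ▸ (neg_sub _ _).symm)⟩
  let s : ℤ → (ℕ → ℤ) → ℕ → ℤ := fun c f r => f r + if St f then c else 0
  let σ : ℤ → (U : Filter ℕ).Product (fun _ => ℤ) → (U : Filter ℕ).Product fun _ => ℤ :=
    fun c => Quotient.map' (s c) fun f g e => e.mono fun r p => by
      simp only [s, p, St2 f g 0 (e.mono fun r p => by simp [p])]
  have σ1 : ∀ c d x, c + d = 0 → σ c (σ d x) = x := fun c d x e => Quotient.inductionOn' x fun f =>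
    congrArg Quotient.mk'' (funext fun r => by
      have := St2 f (s d f) (if St f then d else 0) (.of_forall fun r => by simp [s])
      simp only [s] at this ⊢
      rw [← this]
      split_ifs <;> simp [add_assoc, add_comm d, e])
  let G : (U : Filter ℕ).Product (fun _ => ℤ) ≃[lang ℤ] (U : Filter ℕ).Product fun _ => ℤ :=
    { toFun := σ c
      invFun := σ (-c)
      left_inv := fun x => σ1 _ _ x (by simp)
      right_inv := fun x => σ1 _ _ x (by simp)
      map_fun' := fun f => f.elim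
      map_rel' := fun {_} R x => by
        choose y hy using fun i => Quotient.exists_rep (x i)
        obtain rfl := funext hy
        refine (relMap_quotient_mk' _ R fun i => s c (y i)).trans
          (Iff.trans ?_ (relMap_quotient_mk' _ R y).symm)
        cases R with
        | mk k =>
          show (∀ᶠ r in U, s c (y 1) r - s c (y 0) r = k) ↔ ∀ᶠ r in U, y 1 r - y 0 r = k
          refine ⟨fun e => ?_, fun e => ?_⟩
          · have := St2 (y 0) (y 1) (k - (if St (y 1) then c else 0) + if St (y 0) then c else 0)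
              (e.mono fun r p => by rw [← p]; simp only [s]; abel)
            simpa [s, this] using e
          · simpa [s, St2 _ _ _ e] using e }
  have ns : ∀ i, ¬ St fun r => a r i := fun i ⟨m, hm⟩ => by
    obtain ⟨r, p, q⟩ := (hm.and (Nat.hyperfilter_le_atTop
      (eventually_ge_atTop (Int.natAbs m)))).exists
    have := ha r i
    rw [show a r i = m from p, ← Int.natCast_natAbs] at this
    omega
  have h1 := (StrongHomClass.realize_formula G φ).2 ((Ultraproduct.realize_formula_cast (u := U) φ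
    fun x r => Sum.elim id (a r) x).2 (.of_forall h))
  refine ((Ultraproduct.realize_formula_cast (u := U) φ
    fun x r => Sum.elim (· + c) (a r) x).1 ?_).exists
  refine cast (congrArg φ.Realize (funext fun x => ?_)) h1
  refine congrArg Quotient.mk'' (funext fun r => ?_)
  rcases x with x | i
  · simp [s, show St fun _ => x from ⟨x, by simp⟩]
  · simp [s, ns i]

theorem fpt : FPT (lang ℤ) ℤ := by
  classical
  rintro n - Y ⟨⟨p, hp⟩, y1, y2, y3⟩
  let U := hyperfilter ℤ
  let q : Set ((lang ℤ).Formula (ℤ ⊕ Fin n)) := {φ | ∀ᶠ k in U, φ ∈ act _ _ (tr ℤ k) p}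
  have tq : IsType _ _ n q := ⟨fun s hs => by
    obtain ⟨k, hk⟩ := ((eventually_all_finset s).2 hs).exists
    exact (y1 _ (y3 _ p hp)).1 s hk, fun φ =>
      Ultrafilter.eventually_or.1 (.of_forall fun k => (y1 _ (y3 _ p hp)).2 φ)⟩
  let E : ℤ → Fin n → (lang ℤ).Formula (ℤ ⊕ Fin n) := fun m i =>
    (Term.var (.inr i)).equal (Term.var (.inl m))
  have ne : ∀ m i, (E m i).not ∈ q := fun m i => (tq.2 _).resolve_left fun h => by
    refine (hyperfilter ℤ).frequently_iff_eventually.2 h (hyperfilter_le_cofinite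
      (Set.Subsingleton.finite fun k hk l hl => ?_))
    obtain ⟨φ, a1, a2⟩ := not_not.1 hk
    obtain ⟨ψ, b1, b2⟩ := not_not.1 hl
    obtain ⟨a, ha⟩ := (y1 p hp).1 {φ, ψ} (by simp [Set.insert_subset_iff, *])
    have w : ∀ (k : ℤ) χ, BoundedFormula.relabelEquiv (Equiv.sumCongr (tr ℤ k).toEquiv
        (Equiv.refl (Fin n))) χ = E m i → Formula.Realize χ (Sum.elim id a) → a i + k = m :=
      fun k χ e r => by
        have := (real_act k χ (a + fun _ => k)).2 (by
          convert (StrongHomClass.realize_formula (tr ℤ k) χ).2 r using 1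
          funext x
          cases x <;> rfl)
        rw [e] at this
        simpa [E] using this
    exact add_left_cancel ((w k φ a2 (ha _ (by simp))).trans (w l ψ b2 (ha _ (by simp))).symm)
  have fix : ∀ φ ∈ q, ∀ (c : ℤ) ψ, (∀ a, φ.Realize (Sum.elim (· + c) a) →
      Formula.Realize ψ (Sum.elim id a)) → ψ ∈ q := fun φ hφ c ψ h => (tq.2 ψ).resolve_right fun k => by
    choose a ha using fun r : ℕ => tq.1 (insert φ (insert ψ.not ((Finset.Icc (-r : ℤ) r ×ˢ
      Finset.univ).image fun x => (E x.1 x.2).not))) (by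
        simp only [Finset.coe_insert, Set.insert_subset_iff, Finset.coe_image, Set.image_subset_iff]
        exact ⟨hφ, k, fun x _ => ne _ _⟩)
    obtain ⟨r, hr⟩ := key φ c a (fun r i => by
      by_contra e
      have := ha r (E (a r i) i).not (Finset.mem_insert_of_mem (Finset.mem_insert_of_mem
        (Finset.mem_image.2 ⟨(a r i, i), by simpa using abs_le.1 (not_lt.1 e), rfl⟩)))
      simp [E] at this) fun r => ha r _ (by simp)
    exact Formula.realize_not.1 (ha r ψ.not (by simp)) (h _ hr)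
  refine ⟨q, y2 q tq fun φ h => let ⟨k, hk⟩ := h.exists; ⟨_, y3 _ p hp, hk⟩, fun g => ?_⟩
  rw [aut_eq (fun k => ⟨k, rfl⟩) g]
  refine Set.Subset.antisymm ?_ fun ψ h => ⟨_, fix ψ h (-g 0) _ fun a r => ?_,
    Equiv.apply_symm_apply _ ψ⟩
  · rintro _ ⟨φ, h, rfl⟩
    exact fix φ h _ _ fun a => (real_act _ φ a).2
  · have := real_eq (Equiv.sumCongr (tr ℤ (g 0)).toEquiv (Equiv.refl (Fin n)))
      ((BoundedFormula.relabelEquiv (Equiv.sumCongr (tr ℤ (g 0)).toEquiv
        (Equiv.refl (Fin n)))).symm ψ) (Sum.elim (· + -g 0) a)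
    rw [Equiv.apply_symm_apply] at this
    refine cast (congrArg (Formula.Realize _) (funext fun x => ?_)) (this.1 r)
    cases x <;> simp [tr]

instance : Dif (Option ℤ) := ⟨fun o => o.elim {k | Even k} fun k => {k}⟩

theorem not_fpt : ¬ FPT (lang (Option ℤ)) ℤ := fun h => by
  classical
  obtain ⟨p, hp, k⟩ := h 1 le_rfl {p | IsType _ _ 1 p} ⟨⟨{φ | φ.Realize (Sum.elim id 0)},
    fun s hs => ⟨0, hs⟩, fun φ => by simpa using em _⟩, fun _ => id, fun _ a _ => a, fun g p hp => by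
      rw [aut_eq (fun k => ⟨some k, rfl⟩) g]
      let e := BoundedFormula.relabelEquiv (L := lang (Option ℤ))
        (Equiv.sumCongr (tr (Option ℤ) (g 0)).toEquiv (Equiv.refl (Fin 1))) (k := 0)
      refine ⟨fun s hs => ?_, fun φ => (hp.2 (e.symm φ)).imp (fun a => ⟨_, a, e.apply_symm_apply φ⟩)
        fun a => ⟨_, a, congrArg BoundedFormula.not (e.apply_symm_apply φ)⟩⟩
      obtain ⟨a, ha⟩ := hp.1 (s.image e.symm) (by
        simp only [Finset.coe_image, Set.image_subset_iff]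
        intro φ hφ
        obtain ⟨ψ, a, rfl⟩ := hs hφ
        exact (congrArg (· ∈ p) (e.symm_apply_apply ψ)).mpr a)
      refine ⟨a + fun _ => g 0, fun φ hφ => e.apply_symm_apply φ ▸ (real_act _ _ _).2 ?_⟩
      convert (StrongHomClass.realize_formula (tr (Option ℤ) (g 0)) _).2
        (ha _ (Finset.mem_image_of_mem _ hφ)) using 1
      funext x
      cases x <;> rfl⟩
  let φ : (lang (Option ℤ)).Formula (ℤ ⊕ Fin 1) :=
    Relations.formula₂ (.mk none) (Term.var (.inl 0)) (Term.var (.inr 0))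
  have r : ∀ v : ℤ ⊕ Fin 1 → ℤ, φ.Realize v ↔ Even (v (.inr 0) - v (.inl 0)) :=
    fun v => Formula.realize_rel₂
  have w : ∀ ψ ∈ p, ∃ a, ψ.Realize (Sum.elim id a) ∧ ψ.Realize (Sum.elim (· + (1 : ℤ)) a) :=
    fun ψ h => by
      obtain ⟨a, ha⟩ := hp.1 {ψ, _} (by
        simpa [Set.insert_subset_iff] using ⟨h, (k (tr (Option ℤ) (1 : ℤ))).subset ⟨ψ, h, rfl⟩⟩)
      exact ⟨a, ha _ (by simp), (real_act _ _ _).1 (ha _ (by simp))⟩
  have o : ∀ x : ℤ, Even (x - (0 + 1)) ↔ ¬ Even (x - 0) := fun x => by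
    rw [zero_add, sub_zero, Int.even_sub_one]
  rcases hp.2 φ with h | h <;> obtain ⟨a, a1, a2⟩ := w _ h
  · exact (o (a 0)).1 ((r _).1 a2) ((r _).1 a1)
  · exact Formula.realize_not.1 a2 ((r _).2 ((o (a 0)).2 fun e => Formula.realize_not.1 a1 ((r _).2 e)))

theorem result : ∃ (L L' : FirstOrder.Language.{0, 0}) (M M' : Type) (_ : L.Structure M)
    (_ : L'.Structure M'), FraisseStr L M ∧ FraisseStr L' M' ∧
    (∃ e : (M ≃[L] M) ≃ (M' ≃[L'] M'), (∀ g h, e (g.comp h) = (e g).comp (e h)) ∧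
      @Continuous _ _ (ptw L M) (ptw L' M') e ∧ @Continuous _ _ (ptw L' M') (ptw L M) e.symm) ∧
    FPT L M ∧ ¬ FPT L' M' := by
  have a0 := aut_eq (ι := ℤ) fun k => ⟨k, rfl⟩
  have a1 := aut_eq (ι := Option ℤ) fun k => ⟨some k, rfl⟩
  refine ⟨lang ℤ, lang (Option ℤ), ℤ, ℤ, inferInstance, inferInstance,
    fraisse fun k => ⟨k, rfl⟩, fraisse fun k => ⟨some k, rfl⟩,
    ⟨⟨fun g => tr (Option ℤ) (g 0), fun g => tr ℤ (g 0), fun g => ?_, fun g => ?_⟩, fun g h => ?_, ?_, ?_⟩,
    fpt, not_fpt⟩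
  · exact (congrArg (tr ℤ) (zero_add (g 0))).trans (a0 g).symm
  · exact (congrArg (tr (Option ℤ)) (zero_add (g 0))).trans (a1 g).symm
  · refine Language.Equiv.ext fun x => ?_
    show x + g (h 0) = x + h 0 + g 0
    rw [add_assoc]
    exact congrArg (x + ·) (DFunLike.congr_fun (a0 g) (h 0))
  · refine continuous_induced_rng.2 ?_
    exact @Continuous.congr _ _ (ptw _ _) (_) _ _ continuous_induced_dom
      fun g => congrArg DFunLike.coe (a0 g)
  · refine continuous_induced_rng.2 ?_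
    exact @Continuous.congr _ _ (ptw _ _) (_) _ _ continuous_induced_dom
      fun g => congrArg DFunLike.coe (a1 g)

end Pool.Agent.Results.MP_970e84_lc.Example
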